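import Pool.Agent.H117R3.Indic

/-!
# A locally indicable group outside Brodskii's quasivariety

For elements `a, b` of a group put `x₂ = a b a⁻¹` and `x₃ = a x₂ a⁻¹`, and let `R(a, b)` be the pair
of relations `b x₂ b⁻¹ = a x₂ a⁻¹` and `b x₃ b⁻¹ = a x₃ a⁻¹` (the usual presentation of Thompson's
group `F`).  The class `𝒬` of all groups in which `R(a, b)` implies `a b = b a` is a quasivariety
which contains the integers.  It is extension-closed: if `R(a, b)` holds in `G` and `a, b` commute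
modulo the normal subgroup `N`, then `c = b⁻² x₂ b` and `d = b⁻³ x₂ b²` lie in `N` and satisfy
`R(c, d)`, and if `c` and `d` commute then so do `a` and `b`.  Hence `𝒬` contains the smallest
extension-closed quasivariety containing the integers.  The piecewise linear maps generating
Thompson's group satisfy `R` and do not commute, and they generate a locally indicable group.
-/

set_option autoImplicit false

namespace Pool.Agent.Results.MP_3b2c1c_al.NotBrodskii

open Pool.Agent.H117R3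

universe u

/-- The kernel of the map from the direct product of the groups `G i` onto their ultraproduct with
respect to `U`: the families which are trivial on a set belonging to `U`. -/
def ultraKernel {ι : Type u} (U : Ultrafilter ι) (G : ι → Type u) [∀ i, Group (G i)] :
    Subgroup (∀ i, G i) where
  carrier := {f | ∀ᶠ i in (U : Filter ι), f i = 1}
  one_mem' := Filter.Eventually.of_forall fun _ => rfl
  mul_mem' := by
    intro f g hf hg
    filter_upwards [hf, hg] with i h1 h2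
    rw [Pi.mul_apply, h1, h2, one_mul]
  inv_mem' := by
    intro f hf
    filter_upwards [hf] with i h1
    rw [Pi.inv_apply, h1, inv_one]

instance ultraKernel_normal {ι : Type u} (U : Ultrafilter ι) (G : ι → Type u)
    [∀ i, Group (G i)] : (ultraKernel U G).Normal where
  conj_mem := by
    intro f hf g
    have hf' : ∀ᶠ i in (U : Filter ι), f i = 1 := hf
    show ∀ᶠ i in (U : Filter ι), (g * f * g⁻¹) i = 1
    filter_upwards [hf'] with i h1
    rw [Pi.mul_apply, Pi.mul_apply, h1, mul_one, Pi.inv_apply, mul_inv_cancel]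

/-- A quasivariety of groups: a class of groups which contains the trivial group and is closed
under isomorphism, subgroups, arbitrary direct products and ultraproducts. -/
structure IsQuasivariety (Q : (G : Type u) → [Group G] → Prop) : Prop where
  trivial : Q PUnit.{u + 1}
  iso : ∀ (G H : Type u) [Group G] [Group H], Nonempty (G ≃* H) → Q G → Q H
  subgroup : ∀ (G : Type u) [Group G] (H : Subgroup G), Q G → Q H
  prod : ∀ (ι : Type u) (G : ι → Type u) [∀ i, Group (G i)], (∀ i, Q (G i)) → Q (∀ i, G i)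
  ultraproduct : ∀ (ι : Type u) (U : Ultrafilter ι) (G : ι → Type u) [∀ i, Group (G i)],
    (∀ i, Q (G i)) → Q ((∀ i, G i) ⧸ ultraKernel U G)

/-- The class `Q` is extension-closed: `N ∈ Q` and `G / N ∈ Q` imply `G ∈ Q`. -/
def ExtensionClosed (Q : (G : Type u) → [Group G] → Prop) : Prop :=
  ∀ (G : Type u) [Group G] (N : Subgroup G) [N.Normal], Q N → Q (G ⧸ N) → Q G

/-- `G` belongs to the smallest extension-closed quasivariety containing the integers: it lies in
every extension-closed quasivariety which contains the integers. -/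
def InBrodskii (G : Type u) [Group G] : Prop :=
  ∀ Q : (G : Type u) → [Group G] → Prop, IsQuasivariety Q → ExtensionClosed Q →
    Q (ULift.{u} (Multiplicative ℤ)) → Q G

/-- `G` is locally indicable: every nontrivial finitely generated subgroup maps onto the
integers. -/
def LocallyIndicable (G : Type u) [Group G] : Prop :=
  ∀ H : Subgroup G, H.FG → H ≠ ⊥ →
    ∃ f : H →* Multiplicative ℤ, Function.Surjective f

/-! ### The relations -/

section algebra

variable {G : Type*} [Group G]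

/-- The defining relations of Thompson's group. -/
def Rel (a b : G) : Prop :=
  b * (a * b * a⁻¹) * b⁻¹ = a * (a * b * a⁻¹) * a⁻¹ ∧
    b * (a * (a * b * a⁻¹) * a⁻¹) * b⁻¹ = a * (a * (a * b * a⁻¹) * a⁻¹) * a⁻¹

theorem Rel.shift {a b : G} (h : Rel a b) : Rel b (a * b * a⁻¹) := by
  obtain ⟨h1, h2⟩ := h
  set x := a * b * a⁻¹ with hx
  -- x₃ = b x b⁻¹ = a x a⁻¹, x₄ = b x₃ b⁻¹ = a x₃ a⁻¹
  have e1 : x * (a * x * a⁻¹) * x⁻¹ = a * (a * x * a⁻¹) * a⁻¹ := by
    calc x * (a * x * a⁻¹) * x⁻¹ = a * (b * x * b⁻¹) * a⁻¹ := by rw [hx]; group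
      _ = a * (a * x * a⁻¹) * a⁻¹ := by rw [h1]
  have e2 : x * (a * (a * x * a⁻¹) * a⁻¹) * x⁻¹ = a * (a * (a * x * a⁻¹) * a⁻¹) * a⁻¹ := by
    calc x * (a * (a * x * a⁻¹) * a⁻¹) * x⁻¹ = a * (b * (a * x * a⁻¹) * b⁻¹) * a⁻¹ := by
          rw [hx]; group
      _ = a * (a * (a * x * a⁻¹) * a⁻¹) * a⁻¹ := by rw [h2]
  have e3 : (a * x * a⁻¹) * (a * (a * x * a⁻¹) * a⁻¹) * (a * x * a⁻¹)⁻¹ =
      a * (a * (a * x * a⁻¹) * a⁻¹) * a⁻¹ := by
    calc (a * x * a⁻¹) * (a * (a * x * a⁻¹) * a⁻¹) * (a * x * a⁻¹)⁻¹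
        = a * (x * (a * x * a⁻¹) * x⁻¹) * a⁻¹ := by group
      _ = _ := by rw [e1]
  -- b x₄ b⁻¹ = x₅
  have e4 : b * (a * (a * x * a⁻¹) * a⁻¹) * b⁻¹ = a * (a * (a * x * a⁻¹) * a⁻¹) * a⁻¹ := by
    calc b * (a * (a * x * a⁻¹) * a⁻¹) * b⁻¹ = b * (x * (a * x * a⁻¹) * x⁻¹) * b⁻¹ := by rw [e1]
      _ = (b * x * b⁻¹) * (b * (a * x * a⁻¹) * b⁻¹) * (b * x * b⁻¹)⁻¹ := by group
      _ = (a * x * a⁻¹) * (a * (a * x * a⁻¹) * a⁻¹) * (a * x * a⁻¹)⁻¹ := by rw [h1, h2]
      _ = _ := e3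
  have k1 : b * x * b⁻¹ = a * x * a⁻¹ := h1
  have k2 : b * (a * x * a⁻¹) * b⁻¹ = a * (a * x * a⁻¹) * a⁻¹ := h2
  refine ⟨?_, ?_⟩
  · rw [k1, e1, k2]
  · rw [k1, k2, e2, e4]

theorem Rel.reflect {a b : G} (h : Rel a b) : Rel a⁻¹ (a⁻¹ * a⁻¹ * b * a) := by
  obtain ⟨h1, h2⟩ := h
  set x := a * b * a⁻¹ with hx
  have k1 : (a * x * a⁻¹) * b = b * x := by rw [← h1]; group
  have k2 : (a * (a * x * a⁻¹) * a⁻¹) * b = b * (a * x * a⁻¹) := by rw [← h2]; group
  refine ⟨?_, ?_⟩
  · calc (a⁻¹ * a⁻¹ * b * a) * (a⁻¹ * (a⁻¹ * a⁻¹ * b * a) * a⁻¹⁻¹) * (a⁻¹ * a⁻¹ * b * a)⁻¹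
        = a⁻¹ * a⁻¹ * (a⁻¹ * a⁻¹ * ((a * x * a⁻¹) * b) * a * b⁻¹) * a * a := by
          simp only [hx, mul_assoc, mul_inv_rev, inv_inv, inv_mul_cancel_left,
            mul_inv_cancel_left]
      _ = a⁻¹ * a⁻¹ * (a⁻¹ * a⁻¹ * (b * x) * a * b⁻¹) * a * a := by rw [k1]
      _ = a⁻¹ * (a⁻¹ * (a⁻¹ * a⁻¹ * b * a) * a⁻¹⁻¹) * a⁻¹⁻¹ := by
          simp only [hx, mul_assoc, inv_inv, inv_mul_cancel_left,
            mul_inv_cancel_left]
  · calc (a⁻¹ * a⁻¹ * b * a) * (a⁻¹ * (a⁻¹ * (a⁻¹ * a⁻¹ * b * a) * a⁻¹⁻¹) * a⁻¹⁻¹) *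
          (a⁻¹ * a⁻¹ * b * a)⁻¹
        = a⁻¹ * a⁻¹ * (a⁻¹ * a⁻¹ * a⁻¹ * ((a * (a * x * a⁻¹) * a⁻¹) * b) * a * a * b⁻¹) *
            a * a := by
          simp only [hx, mul_assoc, mul_inv_rev, inv_inv, inv_mul_cancel_left,
            mul_inv_cancel_left]
      _ = a⁻¹ * a⁻¹ * (a⁻¹ * a⁻¹ * a⁻¹ * (b * (a * x * a⁻¹)) * a * a * b⁻¹) * a * a := by
          rw [k2]
      _ = a⁻¹ * (a⁻¹ * (a⁻¹ * (a⁻¹ * a⁻¹ * b * a) * a⁻¹⁻¹) * a⁻¹⁻¹) * a⁻¹⁻¹ := by
          simp only [hx, mul_assoc, inv_inv, inv_mul_cancel_left,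
            mul_inv_cancel_left]

theorem comm_of_shift {a b : G} (h : Rel a b) (hc : b * (a * b * a⁻¹) = (a * b * a⁻¹) * b) :
    a * b = b * a := by
  have h1 := h.1
  rw [hc, mul_inv_cancel_right] at h1
  have h2 : a * (b * a⁻¹) = a * ((a * b * a⁻¹) * a⁻¹) := by
    simpa only [mul_assoc] using h1
  have h3 : b = a * b * a⁻¹ := mul_right_cancel (mul_left_cancel h2)
  nth_rewrite 2 [h3]
  rw [inv_mul_cancel_right]

theorem comm_of_reflect {a b : G}
    (hc : a⁻¹ * (a⁻¹ * a⁻¹ * b * a) = (a⁻¹ * a⁻¹ * b * a) * a⁻¹) : a * b = b * a := by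
  rw [mul_inv_cancel_right] at hc
  have h1 : a⁻¹ * a⁻¹ * (a⁻¹ * b * a) = a⁻¹ * a⁻¹ * b := by
    rw [← hc]; simp only [mul_assoc]
  have h2 : a⁻¹ * b * a = b := mul_left_cancel h1
  calc a * b = a * (a⁻¹ * b * a) := by rw [h2]
    _ = b * a := by rw [mul_assoc, mul_inv_cancel_left]

/-- The endomorphism of Thompson's group into its derived subgroup, on pairs of elements. -/
theorem Rel.theta {a b : G} (h : Rel a b) :
    Rel (b⁻¹ * b⁻¹ * (a * b * a⁻¹) * b) (b⁻¹ * (b⁻¹ * b⁻¹ * (a * b * a⁻¹) * b) * b⁻¹⁻¹) :=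
  h.shift.reflect.shift

theorem comm_of_theta {a b : G} (h : Rel a b)
    (hc : (b⁻¹ * b⁻¹ * (a * b * a⁻¹) * b) *
        (b⁻¹ * (b⁻¹ * b⁻¹ * (a * b * a⁻¹) * b) * b⁻¹⁻¹) =
      (b⁻¹ * (b⁻¹ * b⁻¹ * (a * b * a⁻¹) * b) * b⁻¹⁻¹) *
        (b⁻¹ * b⁻¹ * (a * b * a⁻¹) * b)) : a * b = b * a :=
  comm_of_shift h (comm_of_reflect (comm_of_shift h.shift.reflect hc))

end algebra

/-! ### The separating class -/

/-- The class of groups in which the relations of Thompson's group force `a` and `b` to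
commute. -/
def Sep (G : Type u) [Group G] : Prop :=
  ∀ a b : G, Rel a b → a * b = b * a

theorem Rel.map {G H : Type*} [Group G] [Group H] (f : G →* H) {a b : G} (h : Rel a b) :
    Rel (f a) (f b) := by
  obtain ⟨h1, h2⟩ := h
  refine ⟨?_, ?_⟩
  · simpa only [map_mul, map_inv] using congrArg f h1
  · simpa only [map_mul, map_inv] using congrArg f h2

theorem Sep.of_injective {G H : Type u} [Group G] [Group H] (f : G →* H)
    (hf : Function.Injective f) (h : Sep H) : Sep G := by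
  intro a b hab
  apply hf
  rw [map_mul, map_mul]
  exact h _ _ (hab.map f)

theorem isQuasivariety_sep : IsQuasivariety.{u} (fun G _ => Sep G) where
  trivial := fun _ _ _ => rfl
  iso := by
    rintro G H _ _ ⟨e⟩ h
    exact Sep.of_injective e.symm.toMonoidHom e.symm.injective h
  subgroup := fun G _ H h => Sep.of_injective H.subtype H.subtype_injective h
  prod := by
    intro ι G _ h a b hab
    funext i
    exact h i _ _ (hab.map (Pi.evalMonoidHom G i))
  ultraproduct := by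
    intro ι U G _ h a b hab
    induction a using QuotientGroup.induction_on with | _ a => ?_
    induction b using QuotientGroup.induction_on with | _ b => ?_
    have key : ∀ x y : (∀ i, G i), (x : (∀ i, G i) ⧸ ultraKernel U G) = y ↔
        ∀ᶠ i in (U : Filter ι), x i = y i := by
      intro x y
      rw [QuotientGroup.eq]
      show (∀ᶠ i in (U : Filter ι), (x⁻¹ * y) i = 1) ↔ _
      apply Filter.eventually_congr
      refine Filter.Eventually.of_forall fun i => ?_
      rw [Pi.mul_apply, Pi.inv_apply, inv_mul_eq_one]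
    obtain ⟨h1, h2⟩ := hab
    have h1' := (key (b * (a * b * a⁻¹) * b⁻¹) (a * (a * b * a⁻¹) * a⁻¹)).1 h1
    have h2' := (key (b * (a * (a * b * a⁻¹) * a⁻¹) * b⁻¹)
      (a * (a * (a * b * a⁻¹) * a⁻¹) * a⁻¹)).1 h2
    refine (key (a * b) (b * a)).2 ?_
    filter_upwards [h1', h2'] with i e1 e2
    exact h i _ _ ⟨e1, e2⟩

theorem extensionClosed_sep : ExtensionClosed.{u} (fun G _ => Sep G) := by
  intro G _ N _ hN hQ a b hab
  have hq : (a : G ⧸ N) * b = b * a := hQ _ _ (hab.map (QuotientGroup.mk' N))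
  have hx : ((a * b * a⁻¹ : G) : G ⧸ N) = b := by
    rw [QuotientGroup.mk_mul, QuotientGroup.mk_mul, hq, QuotientGroup.mk_inv,
      mul_inv_cancel_right]
  have hc : (b⁻¹ * b⁻¹ * (a * b * a⁻¹) * b) ∈ N := by
    rw [← QuotientGroup.eq_one_iff]
    rw [QuotientGroup.mk_mul, QuotientGroup.mk_mul, hx, ← QuotientGroup.mk_mul,
      ← QuotientGroup.mk_mul]
    simp
  have hd : (b⁻¹ * (b⁻¹ * b⁻¹ * (a * b * a⁻¹) * b) * b⁻¹⁻¹) ∈ N :=
    Subgroup.Normal.conj_mem ‹N.Normal› _ hc _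
  apply comm_of_theta hab
  have ht := hab.theta
  have : Rel (⟨_, hc⟩ : N) ⟨_, hd⟩ := by
    refine ⟨?_, ?_⟩
    · apply Subtype.ext
      exact ht.1
    · apply Subtype.ext
      exact ht.2
  exact congrArg Subtype.val (hN _ _ this)

/-! ### The locally indicable group -/

theorem fg_map {G H : Type*} [Group G] [Group H] (f : G →* H) {K : Subgroup G} (hK : K.FG) :
    (K.map f).FG := by
  rw [Subgroup.fg_iff] at hK ⊢
  obtain ⟨S, hS, hS'⟩ := hK
  exact ⟨f '' S, by rw [← hS, MonoidHom.map_closure], hS'.image f⟩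

/-- The group generated by `sh 0` and `sh 1`, a copy of Thompson's group `F`. -/
noncomputable def FF : Subgroup (ℝ ≃o ℝ) := Subgroup.closure {sh 0, sh 1}

theorem FF_le : FF ≤ LL := by
  rw [FF, Subgroup.closure_le]
  rintro x (rfl | rfl)
  · exact sh_mem 0 le_rfl
  · exact sh_mem 1 zero_le_one

theorem sh0_mem : sh 0 ∈ FF := Subgroup.subset_closure (by simp)

theorem sh1_mem : sh 1 ∈ FF := Subgroup.subset_closure (by simp)

theorem fg_FF : Group.FG FF := by
  rw [Group.fg_iff_subgroup_fg]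
  rw [Subgroup.fg_iff]
  exact ⟨{sh 0, sh 1}, rfl, by simp⟩

theorem rel_FF : Rel (sh 0) (sh 1) := by
  have e1 : sh 0 * sh 1 * (sh 0)⁻¹ = sh 2 := by rw [sh_conj (by norm_num)]; norm_num
  have e2 : sh 0 * sh 2 * (sh 0)⁻¹ = sh 3 := by rw [sh_conj (by norm_num)]; norm_num
  have e3 : sh 1 * sh 2 * (sh 1)⁻¹ = sh 3 := by rw [sh_conj (by norm_num)]; norm_num
  have e4 : sh 0 * sh 3 * (sh 0)⁻¹ = sh 4 := by rw [sh_conj (by norm_num)]; norm_num
  have e5 : sh 1 * sh 3 * (sh 1)⁻¹ = sh 4 := by rw [sh_conj (by norm_num)]; norm_num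
  refine ⟨?_, ?_⟩
  · rw [e1, e2, e3]
  · rw [e1, e2, e4, e5]

theorem not_sep_FF : ¬ Sep FF := by
  intro h
  have hr : Rel (⟨sh 0, sh0_mem⟩ : FF) ⟨sh 1, sh1_mem⟩ := by
    refine ⟨?_, ?_⟩
    · apply Subtype.ext
      exact rel_FF.1
    · apply Subtype.ext
      exact rel_FF.2
  have h1 : sh 0 * sh 1 = sh 1 * sh 0 := congrArg Subtype.val (h _ _ hr)
  have h2 : sh 0 * sh 1 * (sh 0)⁻¹ = sh 2 := by rw [sh_conj (by norm_num)]; norm_num
  rw [h1, mul_inv_cancel_right] at h2
  exact sh_ne (by norm_num) h2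

theorem locallyIndicable_FF : LocallyIndicable FF := by
  intro H hH hne
  let K : Subgroup (ℝ ≃o ℝ) := H.map FF.subtype
  have hK : K ≤ LL := by
    rintro x ⟨y, _, rfl⟩
    exact FF_le y.2
  have hKfg : K.FG := fg_map _ hH
  have hKne : K ≠ ⊥ := by
    intro h
    apply hne
    rw [Subgroup.map_eq_bot_iff_of_injective _ FF.subtype_injective] at h
    exact h
  obtain ⟨g, hg⟩ := indicable K hK hKfg hKne
  let e : H ≃* K := H.equivMapOfInjective FF.subtype FF.subtype_injective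
  exact ⟨g.comp e.toMonoidHom, hg.comp e.surjective⟩

/-- There is a finitely generated locally indicable group which does not belong to the smallest
extension-closed quasivariety of groups containing the integers. -/
theorem result : ∃ (G : Type u) (_ : Group G),
    Group.FG G ∧ LocallyIndicable G ∧ ¬ InBrodskii G := by
  let e : ULift.{u} FF ≃* FF := MulEquiv.ulift
  refine ⟨ULift.{u} FF, inferInstance, ?_, ?_, ?_⟩
  · have := fg_FF
    exact Group.fg_of_surjective (f := e.symm.toMonoidHom) e.symm.surjective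
  · intro H hH hne
    let K : Subgroup FF := H.map e.toMonoidHom
    have hKfg : K.FG := fg_map _ hH
    have hKne : K ≠ ⊥ := by
      intro h
      apply hne
      rw [Subgroup.map_eq_bot_iff_of_injective _ e.injective] at h
      exact h
    obtain ⟨g, hg⟩ := locallyIndicable_FF K hKfg hKne
    let e' : H ≃* K := H.equivMapOfInjective e.toMonoidHom e.injective
    exact ⟨g.comp e'.toMonoidHom, hg.comp e'.surjective⟩
  · intro h
    have h1 : Sep (ULift.{u} FF) := by
      apply h (fun G _ => Sep G) isQuasivariety_sep extensionClosed_sep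
      intro a b _
      exact mul_comm a b
    apply not_sep_FF
    intro a b hab
    have := h1 (e.symm a) (e.symm b) (hab.map e.symm.toMonoidHom)
    rw [← map_mul, ← map_mul] at this
    exact e.symm.injective this

end Pool.Agent.Results.MP_3b2c1c_al.NotBrodskii
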